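import Mathlib
import Pool.Agent.Lib.MP_ad72f3_p2.Main

/-!
# MP_ad72f3_lc: the cofinalities of the products over the residue classes modulo 4

The definitions used in the statement:

* `Pool.P2.IsSupercompact`, `Pool.P2.IsNormalFine` in `Pool/Agent/Lib/MP_ad72f3_p2/Sc.lean`;
* `Pool.PC.ZFCModel`, `Pool.PC.FunOn`, `Pool.PC.InfCard`, `Pool.PC.NextCard`, `Pool.PC.Alephs`,
  `Pool.PC.num`, `Pool.PC.nset`, `Pool.PC.Elt`, `Pool.PC.PLe`, `Pool.PC.CofFam`, `Pool.PC.CofIs`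
  in `Pool/Agent/Lib/MP_ad72f3_pc/Pat.lean`;
* `Pool.MP_3ade05_lc.ZFModel`, `Pool.MP_3ade05_lc.Fml`, `Pool.MP_3ade05_lc.Sat` (the axioms of
  `ZF`, with the first-order schemata) in `Pool/Agent/Lib/MP_3ade05_lc/Defs.lean`.

No assumption on the continuum function is made.
-/

set_option autoImplicit false

open Cardinal Order

namespace Pool.Agent.Results.MP_ad72f3_lc.SupercompactPattern

open Pool.PC Pool.P2

/-- If `κ` is `(2 ^ κ)⁺`-supercompact, then there is a countable transitive model `V` of `ZFC`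
such that in `V` the cofinality of the product of the `ℵ_n`, `n ≡ 0, 1 mod 4`, is `ℵ_{ω+1}` and
the cofinality of the product of the `ℵ_n`, `n ≡ 2, 3 mod 4`, is `ℵ_{ω+2}`. -/
theorem result (κ : Cardinal.{0}) (hκ : IsSupercompact κ (succ (2 ^ κ))) :
    ∃ V : Set ZFSet.{0}, V.Countable ∧ (∀ x ∈ V, ∀ y ∈ x, y ∈ V) ∧ ZFCModel V ∧
      ∃ (al : ℕ → ZFSet.{0}) (w w₁ w₂ : ZFSet.{0}), Alephs V al w w₁ w₂ ∧
        CofIs V al {n | n % 4 = 0 ∨ n % 4 = 1} w₁ ∧
        CofIs V al {n | n % 4 = 2 ∨ n % 4 = 3} w₂ :=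
  main hκ

end Pool.Agent.Results.MP_ad72f3_lc.SupercompactPattern
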